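import Mathlib

/-! The `n`-th diameter of a plane set. -/

set_option autoImplicit false

namespace Pool.Agent.H165Z.Diam

/-- product of the mutual distances over the unordered pairs -/
noncomputable def vand {n : ℕ} (w : Fin n → ℂ) : ℝ := ∏ i, ∏ j ∈ Finset.Ioi i, ‖w i - w j‖

/-- largest product of mutual distances of `n` points of `E` -/
noncomputable def maxVand (E : Set ℂ) (n : ℕ) : ℝ :=
  sSup {x : ℝ | ∃ w : Fin n → ℂ, (∀ i, w i ∈ E) ∧ x = vand w}

/-- the `n`-th diameter `d_n(E)`, the `n(n-1)/2`-th root of `maxVand E n` -/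
noncomputable def nthDiam (E : Set ℂ) (n : ℕ) : ℝ :=
  maxVand E n ^ ((2 : ℝ) / ((n : ℝ) * ((n : ℝ) - 1)))

end Pool.Agent.H165Z.Diam
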