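import Pool.Agent.H165Z.Diam.Lemn

/-! Fekete points. -/

set_option autoImplicit false

namespace Pool.Agent.H165Z.Diam

open Polynomial Filter Topology

theorem prod_erase_eq {m : ℕ} {M : Type*} [CommMonoid M] (i : Fin (m + 1)) (f : Fin (m + 1) → M) :
    ∏ j ∈ Finset.univ.erase i, f j = ∏ j, f (i.succAbove j) := by
  rw [← Finset.compl_singleton, ← Fin.image_succAbove_univ, Finset.prod_image]
  exact fun a _ b _ h => Fin.succAbove_right_injective h

theorem vand_sq {n : ℕ} (w : Fin n → ℂ) :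
    vand w ^ 2 = ∏ i, ∏ j ∈ Finset.univ.erase i, ‖w i - w j‖ := by
  have := Finset.prod_prod_Ioi_mul_eq_prod_prod_off_diag (fun a b : Fin n => ‖w b - w a‖)
  simp only [Finset.compl_singleton] at this
  rw [← this, vand, sq, ← Finset.prod_mul_distrib]
  refine Finset.prod_congr rfl fun i _ => ?_
  rw [← Finset.prod_mul_distrib]
  refine Finset.prod_congr rfl fun j _ => ?_
  rw [norm_sub_rev (w j)]

theorem vand_succAbove {m : ℕ} (w : Fin (m + 1) → ℂ) (i : Fin (m + 1)) :
    vand w = (∏ j, ‖w i - w (i.succAbove j)‖) * vand (fun j => w (i.succAbove j)) := by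
  have h0 : 0 ≤ ∏ j, ‖w i - w (i.succAbove j)‖ := Finset.prod_nonneg fun _ _ => norm_nonneg _
  refine (pow_left_inj₀ (vand_nonneg _) (mul_nonneg h0 (vand_nonneg _)) two_ne_zero).1 ?_
  rw [mul_pow, vand_sq, vand_sq, Fin.prod_univ_succAbove _ i, prod_erase_eq, sq, mul_assoc]
  congr 1
  rw [← Finset.prod_mul_distrib]
  refine Finset.prod_congr rfl fun a _ => ?_
  have h1 : ∀ (n : ℕ) (c : Fin n) (f : Fin n → ℝ), ∏ j ∈ Finset.univ.erase c, f j =
      ∏ j, if j = c then 1 else f j := by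
    intro n c f
    rw [← Finset.filter_ne', Finset.prod_filter]
    simp
  rw [h1, h1, Fin.prod_univ_succAbove _ i, if_neg (Fin.ne_succAbove i a), norm_sub_rev]
  simp

theorem npairs_succ (m : ℕ) : npairs (m + 1) = npairs m + m := by
  unfold npairs
  rw [Fin.sum_univ_succ]
  simp only [Fin.card_Ioi, Fin.val_zero, Fin.val_succ, add_comm]
  congr 1
  exact Finset.sum_congr rfl fun x _ => by omega

theorem two_mul_npairs (n : ℕ) : 2 * (npairs n : ℝ) = n * (n - 1) := by
  induction n with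
  | zero => simp [npairs]
  | succ n ih => rw [npairs_succ]; push_cast; linarith

theorem exists_unity (n : ℕ) (hn : 1 ≤ n) :
    ∃ ρ : Fin n → ℂ, (∀ j, ‖ρ j‖ = 1) ∧ vand ρ ^ 2 = (n : ℝ) ^ n := by
  classical
  have hz := Complex.isPrimitiveRoot_exp n (by omega)
  set ζ := Complex.exp (2 * Real.pi * Complex.I / n)
  have hnorm : ‖ζ‖ = 1 := hz.norm'_eq_one (by omega)
  refine ⟨fun j => ζ ^ (j : ℕ), fun j => by simp [hnorm], ?_⟩
  have h1 : Lagrange.nodal Finset.univ (fun j : Fin n => ζ ^ (j : ℕ)) = X ^ n - C 1 := by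
    rw [X_pow_sub_C_eq_prod hz (α := 1) (by omega) (one_pow n), Lagrange.nodal_eq,
      Finset.prod_range]
    simp
  rw [vand_sq, ← Fin.prod_const]
  refine Finset.prod_congr rfl fun i _ => ?_
  have h2 := Lagrange.eval_nodal_derivative_eval_node_eq (s := Finset.univ)
    (v := fun j : Fin n => ζ ^ (j : ℕ)) (Finset.mem_univ i)
  rw [h1, Lagrange.eval_nodal] at h2
  rw [← norm_prod, ← h2]
  simp [derivative_X_pow, hnorm]

theorem continuous_vand (n : ℕ) : Continuous fun w : Fin n → ℂ => vand w := by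
  unfold vand
  fun_prop

theorem exists_fekete {E : Set ℂ} (hE : IsCompact E) (hne : E.Nonempty) (m : ℕ) :
    ∃ a : Fin m → ℂ, (∀ i, a i ∈ E) ∧ maxVand E m = vand a ∧
      ∀ w : Fin m → ℂ, (∀ i, w i ∈ E) → vand w ≤ vand a := by
  obtain ⟨e, he⟩ := hne
  have hc : IsCompact (Set.univ.pi fun _ : Fin m => E) := isCompact_univ_pi fun _ => hE
  obtain ⟨a, ha, hmax⟩ := hc.exists_isMaxOn ⟨fun _ => e, fun _ _ => he⟩
    (continuous_vand m).continuousOn
  have h2 : ∀ w : Fin m → ℂ, (∀ i, w i ∈ E) → vand w ≤ vand a := fun w hw => hmax fun i _ => hw i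
  refine ⟨a, fun i => ha i trivial, IsGreatest.csSup_eq ⟨⟨a, fun i => ha i trivial, rfl⟩, ?_⟩, h2⟩
  rintro _ ⟨w, hw, rfl⟩
  exact h2 w hw

theorem vand_le_max {E : Set ℂ} (hE : IsCompact E) (hne : E.Nonempty) {m : ℕ} (w : Fin m → ℂ)
    (hw : ∀ i, w i ∈ E) : vand w ≤ maxVand E m := by
  obtain ⟨a, -, h1, h2⟩ := exists_fekete hE hne m
  rw [h1]; exact h2 w hw

theorem maxVand_nonneg {E : Set ℂ} (hE : IsCompact E) (hne : E.Nonempty) (m : ℕ) :
    0 ≤ maxVand E m := by
  obtain ⟨a, -, h1, -⟩ := exists_fekete hE hne m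
  rw [h1]; exact vand_nonneg _

theorem nthDiam_pow {E : Set ℂ} (hE : IsCompact E) (hne : E.Nonempty) {n : ℕ} (hn : 2 ≤ n) :
    nthDiam E n ^ npairs n = maxVand E n := by
  have h2 : (2 : ℝ) ≤ n := by exact_mod_cast hn
  rw [nthDiam, ← Real.rpow_natCast, ← Real.rpow_mul (maxVand_nonneg hE hne n), div_mul_eq_mul_div,
    two_mul_npairs, div_self (by nlinarith), Real.rpow_one]

theorem injective_of_vand_pos {n : ℕ} {w : Fin n → ℂ} (h : 0 < vand w) : Function.Injective w := by
  intro i j hij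
  by_contra hne
  have h1 : vand w ^ 2 = 0 := by
    rw [vand_sq]
    refine Finset.prod_eq_zero (Finset.mem_univ i) (Finset.prod_eq_zero (i := j) ?_ ?_)
    · simp [Ne.symm hne]
    · simp [hij]
  exact absurd h1 (by positivity)

theorem maxVand_succ_le {E : Set ℂ} (hE : IsCompact E) (hne : E.Nonempty) {m : ℕ} (P : ℂ[X])
    (hP : P.Monic) (hdeg : P.natDegree = m) (S : ℝ) (hS : ∀ e ∈ E, ‖P.eval e‖ ≤ S) :
    maxVand E (m + 1) ≤ (m + 1) * S * maxVand E m := by
  classical
  obtain ⟨b, hb, h1, -⟩ := exists_fekete hE hne (m + 1)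
  have hS0 : 0 ≤ S := (norm_nonneg _).trans (hS _ (hb 0))
  have hV := maxVand_nonneg hE hne m
  rw [h1]
  rcases (vand_nonneg b).eq_or_lt with h0 | h0
  · rw [← h0]; positivity
  have h2 := Lagrange.leadingCoeff_eq_sum (s := Finset.univ) (v := b)
    (injective_of_vand_pos h0).injOn (P := P) (by
      rw [degree_eq_natDegree hP.ne_zero, hdeg]; simp)
  rw [hP.leadingCoeff] at h2
  have h3 : (1 : ℝ) ≤ ∑ _i : Fin (m + 1), S * maxVand E m / vand b := by
    calc (1 : ℝ) = ‖(1 : ℂ)‖ := norm_one.symm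
      _ ≤ ∑ i, ‖P.eval (b i) / ∏ j ∈ Finset.univ.erase i, (b i - b j)‖ := by
          rw [h2]; exact norm_sum_le _ _
      _ ≤ _ := Finset.sum_le_sum fun i _ => by
          rw [norm_div, norm_prod, prod_erase_eq]
          have h4 := vand_succAbove b i
          have h5 := vand_le_max hE hne (fun j => b (i.succAbove j)) fun j => hb _
          have h6 : 0 < ∏ j, ‖b i - b (i.succAbove j)‖ := by
            rw [h4] at h0
            exact pos_of_mul_pos_left h0 (vand_nonneg _)
          rw [div_le_div_iff₀ h6 h0, h4, mul_assoc, mul_comm (maxVand E m)]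
          exact mul_le_mul (hS _ (hb i)) (mul_le_mul_of_nonneg_left h5 h6.le)
            (mul_nonneg h6.le (vand_nonneg _)) hS0
  rw [Finset.sum_const, Finset.card_univ, Fintype.card_fin, nsmul_eq_mul, ← mul_div_assoc,
    one_le_div h0] at h3
  push_cast at h3
  linarith

theorem update_succAbove {m : ℕ} (a : Fin (m + 1) → ℂ) (i : Fin (m + 1)) (x : ℂ) (j : Fin m) :
    Function.update a i x (i.succAbove j) = a (i.succAbove j) :=
  Function.update_of_ne (Fin.succAbove_ne i j) _ _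

theorem vand_update {m : ℕ} (a : Fin (m + 1) → ℂ) (i : Fin (m + 1)) (x : ℂ) :
    vand (Function.update a i x) =
      (∏ j, ‖x - a (i.succAbove j)‖) * vand (fun j => a (i.succAbove j)) := by
  rw [vand_succAbove _ i]
  simp only [update_succAbove, Function.update_self]

theorem lagrange_bound {E : Set ℂ} {m : ℕ} (a : Fin (m + 1) → ℂ) (ha : ∀ i, a i ∈ E)
    (hmax : ∀ w : Fin (m + 1) → ℂ, (∀ i, w i ∈ E) → vand w ≤ vand a) (hpos : 0 < vand a)
    (R : ℝ) (hR : ∀ e ∈ E, ‖e‖ ≤ R) (e₀ : ℂ) (he₀ : e₀ ∈ E) (z : ℂ)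
    (hz : ‖(Lagrange.nodal Finset.univ a).eval z‖ ≤ ‖(Lagrange.nodal Finset.univ a).eval e₀‖)
    (δ : ℝ) (hδ : 0 < δ) (hzd : ∀ e ∈ E, δ ≤ ‖z - e‖) (Q : ℂ[X]) (hQ : Q.natDegree ≤ m) (B : ℝ)
    (hB : ∀ e ∈ E, ‖Q.eval e‖ ≤ B) : ‖Q.eval z‖ ≤ (m + 1) * (2 * R / δ * B) := by
  classical
  have hinj := injective_of_vand_pos hpos
  have hB0 : 0 ≤ B := (norm_nonneg _).trans (hB _ he₀)
  have hR0 : 0 ≤ R := (norm_nonneg _).trans (hR _ he₀)
  have hne : ∀ i ∈ (Finset.univ : Finset (Fin (m + 1))), z ≠ a i := fun i _ h => by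
    have := hzd _ (ha i)
    rw [h, sub_self, norm_zero] at this
    linarith
  have h1 := Lagrange.eq_interpolate (s := Finset.univ) (v := a) (f := Q) hinj.injOn (by
    refine degree_le_natDegree.trans_lt ?_
    simp only [Finset.card_univ, Fintype.card_fin]
    exact_mod_cast Nat.lt_succ_of_le hQ)
  have h2 := Lagrange.eval_interpolate_not_at_node (s := Finset.univ) (v := a)
    (fun i => Q.eval (a i)) hne
  rw [← h1, Finset.mul_sum] at h2
  rw [h2]
  refine (norm_sum_le _ _).trans ?_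
  have h3 : ∀ i : Fin (m + 1), ‖(Lagrange.nodal Finset.univ a).eval z *
      (Lagrange.nodalWeight Finset.univ a i * (z - a i)⁻¹ * Q.eval (a i))‖ ≤ 2 * R / δ * B := by
    intro i
    have h4 := vand_succAbove a i
    have h5 : 0 < vand (fun j => a (i.succAbove j)) := by
      rw [h4] at hpos
      exact pos_of_mul_pos_right hpos (Finset.prod_nonneg fun _ _ => norm_nonneg _)
    have h6 : 0 < ∏ j, ‖a i - a (i.succAbove j)‖ := by
      rw [h4] at hpos
      exact pos_of_mul_pos_left hpos (vand_nonneg _)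
    have h7 := hmax (Function.update a i e₀) (fun j => by
      by_cases h : j = i
      · rw [h, Function.update_self]; exact he₀
      · rw [Function.update_of_ne h]; exact ha j)
    rw [vand_update, h4] at h7
    have h8 := le_of_mul_le_mul_right h7 h5
    have h9 : ‖(Lagrange.nodal Finset.univ a).eval e₀‖ ≤
        2 * R * ∏ j, ‖a i - a (i.succAbove j)‖ := by
      rw [Lagrange.eval_nodal, norm_prod, Fin.prod_univ_succAbove _ i]
      have : ‖e₀ - a i‖ ≤ 2 * R := (norm_sub_le _ _).trans (by linarith [hR _ he₀, hR _ (ha i)])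
      gcongr
    have h10 : ‖Lagrange.nodalWeight Finset.univ a i‖ = (∏ j, ‖a i - a (i.succAbove j)‖)⁻¹ := by
      rw [Lagrange.nodalWeight, norm_prod, prod_erase_eq, ← Finset.prod_inv_distrib]
      simp
    rw [norm_mul, norm_mul, norm_mul, h10, norm_inv]
    have h11 : ‖z - a i‖⁻¹ ≤ δ⁻¹ := inv_anti₀ hδ (hzd _ (ha i))
    calc _ ≤ (2 * R * ∏ j, ‖a i - a (i.succAbove j)‖) *
          ((∏ j, ‖a i - a (i.succAbove j)‖)⁻¹ * δ⁻¹ * B) := by
          gcongr
          · exact hz.trans h9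
          · exact hB _ (ha i)
      _ = _ := by field_simp
  refine (Finset.sum_le_sum fun i _ => h3 i).trans ?_
  simp

/-- polynomial hull -/
def Hull (E : Set ℂ) : Set ℂ :=
  {z | ∀ (q : ℂ[X]) (B : ℝ), (∀ e ∈ E, ‖q.eval e‖ ≤ B) → ‖q.eval z‖ ≤ B}

theorem vand_le_of_hull {E : Set ℂ} (hE : IsCompact E) (hne : E.Nonempty) {m : ℕ}
    (s : Finset (Fin (m + 1))) : ∀ w : Fin (m + 1) → ℂ, (∀ j, w j ∈ Hull E) → (∀ j ∉ s, w j ∈ E) →
      vand w ≤ maxVand E (m + 1) := by
  classical
  induction s using Finset.induction_on with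
  | empty => intro w _ hw; exact vand_le_max hE hne w fun j => hw j (by simp)
  | insert i s _ ih =>
    intro w h1 h2
    let q : ℂ[X] := ∏ j, (X - C (w (i.succAbove j)))
    have hq : ∀ x, ‖q.eval x‖ = ∏ j, ‖x - w (i.succAbove j)‖ := fun x => by
      simp [q, eval_prod, norm_prod]
    obtain ⟨e, he, hmax⟩ := hE.exists_isMaxOn hne
      (f := fun x => ‖q.eval x‖) (by fun_prop)
    have h3 := h1 i q _ fun x hx => hmax hx
    have h4 := ih (Function.update w i e) (fun j => by
      by_cases h : j = i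
      · rw [h, Function.update_self]; exact fun q B hB => hB e he
      · rw [Function.update_of_ne h]; exact h1 j) (fun j hj => by
      by_cases h : j = i
      · rw [h, Function.update_self]; exact he
      · rw [Function.update_of_ne h]; exact h2 j (by simp [h, hj]))
    refine le_trans ?_ h4
    rw [vand_update, vand_succAbove w i, ← hq, ← hq]
    exact mul_le_mul_of_nonneg_right h3 (vand_nonneg _)

end Pool.Agent.H165Z.Diam
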