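import Pool.Agent.H165Z.Diam.Defs

/-! The bound for polynomial lemniscates. -/

set_option autoImplicit false

namespace Pool.Agent.H165Z.Diam

open Polynomial Filter Topology

theorem exists_roots (Q : ℂ[X]) (hQ : Q.Monic) {m : ℕ} (hm : Q.natDegree = m) :
    ∃ r : Fin m → ℂ, Q = ∏ i, (X - C (r i)) := by
  obtain ⟨l, hl⟩ : ∃ l : List ℂ, (l : Multiset ℂ) = Q.roots := Quot.exists_rep _
  have h1 : l.length = m := by
    rw [← hm, ← IsAlgClosed.card_roots_eq_natDegree, ← hl, Multiset.coe_card]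
  subst h1
  refine ⟨fun i => l[i.1], ?_⟩
  rw [Fin.prod_univ_fun_getElem l (fun a => X - C a)]
  conv_lhs => rw [(IsAlgClosed.splits Q).eq_prod_roots_of_monic hQ, ← hl]
  simp

theorem esymm_diff {m : ℕ} (r : ℂ → Fin m → ℂ)
    (h : ∀ k, Differentiable ℂ fun e => (∏ i, (X - C (r e i))).coeff k) (k : ℕ) :
    Differentiable ℂ fun e => MvPolynomial.aeval (r e) (MvPolynomial.esymm (Fin m) ℂ k) := by
  simp only [MvPolynomial.aeval_esymm_eq_multiset_esymm]
  by_cases hk : k ≤ m
  · have : (fun e => (Finset.univ.val.map (r e)).esymm k) =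
        fun e => (-1) ^ k * (∏ i, (X - C (r e i))).coeff (m - k) := by
      funext e
      have h1 := Multiset.prod_X_sub_C_coeff (Finset.univ.val.map (r e)) (k := m - k) (by simp)
      have h2 : Multiset.card (Finset.univ.val.map (r e)) - (m - k) = k := by
        simp; omega
      rw [h2, Multiset.map_map] at h1
      have h3 : (∏ i, (X - C (r e i))) = (Multiset.map ((fun t => X - C t) ∘ r e) Finset.univ.val).prod :=
        rfl
      rw [h3, h1, ← mul_assoc, ← mul_pow]
      simp
    rw [this]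
    exact (h _).const_mul _
  · have : (fun e => (Finset.univ.val.map (r e)).esymm k) = fun _ => 0 := by
      funext e
      unfold Multiset.esymm
      rw [Multiset.powersetCard_eq_empty k (by simp; omega)]
      simp
    rw [this]
    exact differentiable_const _

theorem psum_diff {m : ℕ} (r : ℂ → Fin m → ℂ)
    (h : ∀ k, Differentiable ℂ fun e => (∏ i, (X - C (r e i))).coeff k) (a : ℕ) :
    Differentiable ℂ fun e => ∑ i, r e i ^ a := by
  have key : ∀ a, Differentiable ℂ
      fun e => MvPolynomial.aeval (r e) (MvPolynomial.psum (Fin m) ℂ a) := by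
    intro a
    induction a using Nat.strong_induction_on with
    | _ a ih =>
      rcases Nat.eq_zero_or_pos a with rfl | ha
      · simp [MvPolynomial.psum]
      · rw [MvPolynomial.psum_eq_mul_esymm_sub_sum _ _ a ha]
        simp only [map_sub, map_mul, map_sum, map_pow, map_neg, map_one, map_natCast]
        refine ((esymm_diff r h a).const_mul _).sub (Differentiable.fun_sum fun p hp => ?_)
        refine ((esymm_diff r h _).const_mul _).mul (ih _ ?_)
        have h1 := Finset.HasAntidiagonal.mem_antidiagonal.1 (Finset.mem_filter.1 hp).1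
        have h2 := (Finset.mem_filter.1 hp).2.1
        omega
  simpa [MvPolynomial.psum] using key a

theorem tuple_diff {m n : ℕ} (r : Fin n → ℂ → Fin m → ℂ)
    (h : ∀ j k, Differentiable ℂ fun e => (∏ i, (X - C (r j e i))).coeff k)
    (F : MvPolynomial (Fin n) ℂ) :
    Differentiable ℂ fun e => ∑ τ : Fin n → Fin m, MvPolynomial.eval (fun j => r j e (τ j)) F := by
  induction F using MvPolynomial.induction_on' with
  | monomial α c =>
    have : (fun e => ∑ τ : Fin n → Fin m,
        MvPolynomial.eval (fun j => r j e (τ j)) (MvPolynomial.monomial α c)) =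
        fun e => c * ∏ j, ∑ i, r j e i ^ α j := by
      funext e
      rw [Finset.prod_univ_sum, Finset.mul_sum, Fintype.piFinset_univ]
      refine Finset.sum_congr rfl fun τ _ => ?_
      rw [MvPolynomial.eval_monomial, Finsupp.prod_fintype _ _ (by simp)]
    rw [this]
    refine Differentiable.const_mul ?_ _
    exact Differentiable.fun_finsetProd fun j _ => psum_diff (r j) (h j) _
  | add p q hp hq =>
    simp only [map_add, Finset.sum_add_distrib]
    exact hp.add hq

theorem norm_le_of_power_sums {ι : Type} [Fintype ι] (z : ι → ℂ) (C M : ℝ) (hM : 0 ≤ M)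
    (h : ∀ k, ‖∑ i, z i ^ k‖ ≤ C * M ^ k) (i : ι) : ‖z i‖ ≤ M := by
  classical
  obtain ⟨i₀, -, hi₀⟩ := Finset.exists_max_image Finset.univ (fun i => ‖z i‖) ⟨i, Finset.mem_univ i⟩
  refine (hi₀ i (Finset.mem_univ i)).trans ?_
  by_contra hlt
  push Not at hlt
  have hpos : 0 < ‖z i₀‖ := hM.trans_lt hlt
  have hz0 : z i₀ ≠ 0 := norm_pos_iff.1 hpos
  let u : ι → ℂ := fun i => z i / z i₀
  have hu : ∀ i, ‖u i‖ ≤ 1 := fun i => by
    simp only [u, norm_div]
    exact (div_le_one hpos).2 (hi₀ i (Finset.mem_univ i))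
  have hq : M / ‖z i₀‖ < 1 := (div_lt_one hpos).2 hlt
  have hq0 : 0 ≤ M / ‖z i₀‖ := by positivity
  have hC : 0 ≤ C := by
    have := (norm_nonneg _).trans (h 0)
    simpa using this
  have h1 : ∀ K : ℕ, ‖∑ k ∈ Finset.range K, ∑ i, u i ^ k‖ ≤ C * (1 - M / ‖z i₀‖)⁻¹ := by
    intro K
    refine (norm_sum_le _ _).trans ?_
    calc ∑ k ∈ Finset.range K, ‖∑ i, u i ^ k‖
        ≤ ∑ k ∈ Finset.range K, C * (M / ‖z i₀‖) ^ k := by
          refine Finset.sum_le_sum fun k _ => ?_
          simp only [u, div_pow]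
          rw [← Finset.sum_div, norm_div, norm_pow, ← mul_div_assoc]
          exact div_le_div_of_nonneg_right (h k) (by positivity)
      _ = C * ∑ k ∈ Finset.range K, (M / ‖z i₀‖) ^ k := by rw [Finset.mul_sum]
      _ ≤ _ := by
          gcongr
          rw [← tsum_geometric_of_lt_one hq0 hq]
          exact (summable_geometric_of_lt_one hq0 hq).sum_le_tsum _ fun _ _ => by positivity
  let B : ℝ := ∑ i ∈ Finset.univ.filter (fun i => ¬ u i = 1), 2 / ‖u i - 1‖
  have h2 : ∀ K : ℕ, (K : ℝ) ≤ C * (1 - M / ‖z i₀‖)⁻¹ + B := by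
    intro K
    have e1 : ∑ k ∈ Finset.range K, ∑ i, u i ^ k =
        ((Finset.univ.filter (fun i => u i = 1)).card * K : ℕ) +
          ∑ i ∈ Finset.univ.filter (fun i => ¬ u i = 1), ∑ k ∈ Finset.range K, u i ^ k := by
      rw [Finset.sum_comm, ← Finset.sum_filter_add_sum_filter_not Finset.univ (fun i => u i = 1)]
      congr 1
      rw [Finset.sum_congr rfl (g := fun _ => (K : ℂ))]
      · simp
      · intro i hi
        simp [(Finset.mem_filter.1 hi).2]
    have e2 : ‖∑ i ∈ Finset.univ.filter (fun i => ¬ u i = 1), ∑ k ∈ Finset.range K, u i ^ k‖ ≤ B := by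
      refine (norm_sum_le _ _).trans (Finset.sum_le_sum fun i hi => ?_)
      have hne : u i ≠ 1 := (Finset.mem_filter.1 hi).2
      rw [geom_sum_eq hne, norm_div]
      refine div_le_div_of_nonneg_right ?_ (norm_nonneg _)
      refine (norm_sub_le _ _).trans ?_
      rw [norm_pow, norm_one]
      have := pow_le_one₀ (n := K) (norm_nonneg (u i)) (hu i)
      linarith
    have e3 : 1 ≤ (Finset.univ.filter (fun i => u i = 1)).card :=
      Finset.card_pos.2 ⟨i₀, Finset.mem_filter.2 ⟨Finset.mem_univ _, div_self hz0⟩⟩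
    have e4 : (K : ℝ) ≤ (((Finset.univ.filter (fun i => u i = 1)).card * K : ℕ) : ℝ) := by
      exact_mod_cast Nat.le_mul_of_pos_left K e3
    have e5 := h1 K
    rw [e1] at e5
    have e6 := norm_sub_le (((((Finset.univ.filter (fun i => u i = 1)).card * K : ℕ) : ℂ)) +
      ∑ i ∈ Finset.univ.filter (fun i => ¬ u i = 1), ∑ k ∈ Finset.range K, u i ^ k)
      (∑ i ∈ Finset.univ.filter (fun i => ¬ u i = 1), ∑ k ∈ Finset.range K, u i ^ k)
    rw [add_sub_cancel_right, Complex.norm_natCast] at e6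
    linarith
  obtain ⟨K, hK⟩ := exists_nat_gt (C * (1 - M / ‖z i₀‖)⁻¹ + B)
  exact absurd (h2 K) (not_le.2 hK)

/-- the Vandermonde product as a polynomial -/
noncomputable def vpoly (n : ℕ) : MvPolynomial (Fin n) ℂ :=
  ∏ i, ∏ j ∈ Finset.Ioi i, (MvPolynomial.X i - MvPolynomial.X j)

theorem norm_eval_vpoly {n : ℕ} (w : Fin n → ℂ) : ‖MvPolynomial.eval w (vpoly n)‖ = vand w := by
  simp [vpoly, vand, norm_prod]

theorem vand_nonneg {n : ℕ} (w : Fin n → ℂ) : 0 ≤ vand w :=
  Finset.prod_nonneg fun _ _ => Finset.prod_nonneg fun _ _ => norm_nonneg _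

/-- number of unordered pairs -/
def npairs (n : ℕ) : ℕ := ∑ i : Fin n, (Finset.Ioi i).card

theorem vand_smul {n : ℕ} (c : ℂ) (w : Fin n → ℂ) :
    vand (fun i => c * w i) = ‖c‖ ^ npairs n * vand w := by
  simp only [vand, ← mul_sub, norm_mul, Finset.prod_mul_distrib, Finset.prod_const, npairs,
    Finset.prod_pow_eq_pow_sum]

theorem lemniscate {n m : ℕ} (hm : 1 ≤ m) (P : ℂ[X]) (hP : P.Monic) (hdeg : P.natDegree = m)
    (ρ : Fin n → ℂ) (hρ : ∀ j, ‖ρ j‖ = 1) (t : ℝ) (ht : 0 < t) (M : ℝ) (hM0 : 0 ≤ M)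
    (hM : M < vand ρ) :
    ∃ w : Fin n → ℂ, (∀ j, ‖P.eval (w j)‖ = t ^ m) ∧ M * t ^ npairs n < vand w := by
  classical
  let Q : Fin n → ℂ → ℂ[X] := fun j e => P.scaleRoots e - C (ρ j ^ m)
  have hlt : ∀ j e, (C (ρ j ^ m) : ℂ[X]).degree < (P.scaleRoots e).degree := by
    intro j e
    rw [degree_scaleRoots, degree_eq_natDegree hP.ne_zero, hdeg]
    exact degree_C_le.trans_lt (by exact_mod_cast hm)
  have hQm : ∀ j e, (Q j e).Monic := fun j e =>
    ((monic_scaleRoots_iff e).2 hP).sub_of_left (hlt j e)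
  have hQd : ∀ j e, (Q j e).natDegree = m := fun j e => by
    simp only [Q]
    rw [natDegree_sub_C, natDegree_scaleRoots, hdeg]
  choose r hr using fun j e => exists_roots (Q j e) (hQm j e) (hQd j e)
  have hdiff : ∀ j k, Differentiable ℂ fun e => (∏ i, (X - C (r j e i))).coeff k := by
    intro j k
    simp only [← hr, Q, coeff_sub, coeff_scaleRoots]
    fun_prop
  have hroot : ∀ j e i, (P.scaleRoots e).eval (r j e i) = ρ j ^ m := by
    intro j e i
    have : (Q j e).eval (r j e i) = 0 := by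
      rw [hr j e, eval_prod]
      exact Finset.prod_eq_zero (Finset.mem_univ i) (by simp)
    simpa [Q, sub_eq_zero] using this
  by_contra hcon
  push Not at hcon
  have hb : ∀ e : ℂ, ‖e‖ = t⁻¹ → ∀ τ : Fin n → Fin m, vand (fun j => r j e (τ j)) ≤ M := by
    intro e he τ
    have he0 : e ≠ 0 := by
      rw [← norm_pos_iff, he]; positivity
    have h1 := hcon (fun j => e⁻¹ * r j e (τ j)) (fun j => by
      have h2 := scaleRoots_eval_mul P (e⁻¹ * r j e (τ j)) e
      rw [← mul_assoc, mul_inv_cancel₀ he0, one_mul, hroot, hdeg] at h2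
      have h3 := congrArg norm h2
      rw [norm_pow, hρ, one_pow, norm_mul, norm_pow, he] at h3
      have h4 : (0 : ℝ) < t ^ m := by positivity
      rw [inv_pow, eq_inv_mul_iff_mul_eq₀ h4.ne', mul_one] at h3
      exact h3.symm)
    rw [vand_smul, norm_inv, he, inv_inv, mul_comm] at h1
    exact le_of_mul_le_mul_right h1 (by positivity)
  have hk : ∀ k, ‖∑ τ : Fin n → Fin m, (MvPolynomial.eval (fun j => r j 0 (τ j)) (vpoly n)) ^ k‖ ≤
      (Fintype.card (Fin n → Fin m) : ℝ) * M ^ k := by
    intro k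
    have hd := tuple_diff r hdiff (vpoly n ^ k)
    simp only [map_pow] at hd
    refine Complex.norm_le_of_forall_mem_frontier_norm_le (U := Metric.ball (0 : ℂ) t⁻¹)
      Metric.isBounded_ball hd.diffContOnCl (fun e he => ?_)
      (subset_closure (Metric.mem_ball_self (by positivity)))
    rw [frontier_ball _ (by positivity), mem_sphere_zero_iff_norm] at he
    refine (norm_sum_le _ _).trans ?_
    rw [← Finset.card_univ, ← nsmul_eq_mul]
    refine Finset.sum_le_card_nsmul _ _ _ fun τ _ => ?_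
    rw [norm_pow, norm_eval_vpoly]
    exact pow_le_pow_left₀ (vand_nonneg _) (hb e he τ) k
  have hτ : ∀ j, ∃ i, r j 0 i = ρ j := by
    intro j
    have h1 : (Q j 0).eval (ρ j) = 0 := by
      simp only [Q, eval_sub, eval_C]
      rw [scaleRoots_zero, hP.leadingCoeff, hdeg]
      simp
    rw [hr j 0, eval_prod, Finset.prod_eq_zero_iff] at h1
    obtain ⟨i, -, hi⟩ := h1
    rw [eval_sub, eval_X, eval_C, sub_eq_zero] at hi
    exact ⟨i, hi.symm⟩
  choose τ hτ using hτ
  have := norm_le_of_power_sums _ _ M hM0 hk τ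
  rw [norm_eval_vpoly] at this
  simp only [hτ] at this
  exact absurd hM (not_lt.2 this)

end Pool.Agent.H165Z.Diam
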