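import Pool.Agent.H165Z.Diam.Fek

set_option autoImplicit false

namespace Pool.Agent.H165Z.Diam

open Polynomial Filter Topology

theorem nonempty_of_tendsto {E : Set ℂ} (h : Tendsto (nthDiam E) atTop (𝓝 1)) : E.Nonempty := by
  rw [Set.nonempty_iff_ne_empty]
  rintro rfl
  obtain ⟨n, h1, h2⟩ := ((h.eventually (lt_mem_nhds zero_lt_one)).and (eventually_ge_atTop 2)).exists
  have h3 : {x : ℝ | ∃ w : Fin n → ℂ, (∀ i, w i ∈ (∅ : Set ℂ)) ∧ x = vand w} = ∅ := by
    ext x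
    simp only [Set.mem_ofPred_eq, Set.mem_empty_iff_false, iff_false, not_exists, not_and]
    exact fun w hw => (hw ⟨0, by omega⟩).elim
  have h4 : (2 : ℝ) ≤ n := by exact_mod_cast h2
  rw [nthDiam, maxVand, h3, Real.sSup_empty, Real.zero_rpow] at h1
  · exact lt_irrefl _ h1
  · have : (0 : ℝ) < n * (n - 1) := by nlinarith
    positivity

theorem low {E : Set ℂ} (hE : IsCompact E) (h : Tendsto (nthDiam E) atTop (𝓝 1)) {θ : ℝ}
    (h0 : 0 < θ) (h1 : θ < 1) : ∀ᶠ m in atTop, θ ^ npairs m ≤ maxVand E m := by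
  filter_upwards [h.eventually (lt_mem_nhds h1), eventually_ge_atTop 2] with m hm hm2
  rw [← nthDiam_pow hE (nonempty_of_tendsto h) hm2]
  exact pow_le_pow_left₀ h0.le hm.le _

theorem le_npairs (m : ℕ) : m ≤ npairs (m + 1) := by rw [npairs_succ]; omega

theorem freq {E : Set ℂ} (hE : IsCompact E) (h : Tendsto (nthDiam E) atTop (𝓝 1)) (S : ℕ → ℝ)
    (hS : ∀ m, maxVand E (m + 2) ≤ (m + 2) * S m * maxVand E (m + 1)) {θ : ℝ}
    (h0 : 0 < θ) (h1 : θ < 1) : ∃ᶠ m in atTop, θ ^ (m + 1) ≤ S m := by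
  by_contra hcon
  rw [not_frequently] at hcon
  have hne := nonempty_of_tendsto h
  obtain ⟨a, ha1, ha2⟩ := exists_between h1
  obtain ⟨b, hb1, hb2⟩ := exists_between ha2
  have ha0 : 0 < a := h0.trans ha1
  have hq : θ / a < 1 := (div_lt_one ha0).2 ha1
  have t1 : Tendsto (fun m : ℕ => ((m + 1 : ℕ) : ℝ) * (θ / a) ^ (m + 1) + (θ / a) ^ (m + 1))
      atTop (𝓝 (0 + 0)) :=
    (((tendsto_self_mul_const_pow_of_lt_one (by positivity) hq).add
      (tendsto_pow_atTop_nhds_zero_of_lt_one (by positivity) hq)).comp (tendsto_add_atTop_nat 1))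
  have e1 : ∀ᶠ m : ℕ in atTop, maxVand E (m + 2) / a ^ npairs (m + 2) ≤
      maxVand E (m + 1) / a ^ npairs (m + 1) := by
    filter_upwards [hcon, t1.eventually (gt_mem_nhds (show (0 : ℝ) + 0 < 1 by norm_num))]
      with m hm hm'
    push Not at hm
    have hV := maxVand_nonneg hE hne (m + 1)
    have h2 : ((m : ℝ) + 2) * θ ^ (m + 1) ≤ a ^ (m + 1) := by
      rw [div_pow, ← add_one_mul, ← mul_div_assoc, div_lt_one (by positivity)] at hm'
      push_cast at hm'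
      linarith
    rw [npairs_succ (m + 1), pow_add, div_le_div_iff₀ (by positivity) (by positivity)]
    have h3 : maxVand E (m + 2) ≤ a ^ (m + 1) * maxVand E (m + 1) := by
      refine (hS m).trans (mul_le_mul_of_nonneg_right ?_ hV)
      exact le_trans (mul_le_mul_of_nonneg_left hm.le (by positivity)) h2
    calc _ ≤ a ^ (m + 1) * maxVand E (m + 1) * a ^ npairs (m + 1) := by gcongr
      _ = _ := by ring
  obtain ⟨m₁, hm₁⟩ := eventually_atTop.1 e1
  have e2 : ∀ m, m₁ ≤ m → maxVand E (m + 1) / a ^ npairs (m + 1) ≤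
      maxVand E (m₁ + 1) / a ^ npairs (m₁ + 1) := by
    intro m hm
    induction m, hm using Nat.le_induction with
    | base => exact le_rfl
    | succ m hm ih => exact (hm₁ m hm).trans ih
  have hba : 1 < b / a := (one_lt_div ha0).2 hb1
  have t2 := (tendsto_pow_atTop_atTop_of_one_lt hba).eventually
    (eventually_gt_atTop (maxVand E (m₁ + 1) / a ^ npairs (m₁ + 1)))
  have t3 := (tendsto_add_atTop_nat 1).eventually (low hE h (ha0.trans hb1) hb2)
  obtain ⟨m, k1, k2, k3⟩ := (t2.and (t3.and (eventually_ge_atTop m₁))).exists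
  have k4 := e2 m k3
  have k5 : (b / a) ^ m ≤ (b / a) ^ npairs (m + 1) := pow_le_pow_right₀ hba.le (le_npairs m)
  have k6 : (b / a) ^ npairs (m + 1) ≤ maxVand E (m + 1) / a ^ npairs (m + 1) := by
    rw [div_pow]; gcongr
  linarith

theorem approx {E : Set ℂ} (hE : IsCompact E) (h : Tendsto (nthDiam E) atTop (𝓝 1)) {n : ℕ}
    (ρ : Fin (n + 1) → ℂ) (hρ : ∀ j, ‖ρ j‖ = 1) {θ : ℝ} (h0 : 0 < θ) (h1 : θ < 1) (M : ℝ)
    (hM0 : 0 ≤ M) (hM : M < vand ρ) : M * θ ^ npairs (n + 1) ≤ maxVand E (n + 1) := by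
  classical
  have hne := nonempty_of_tendsto h
  obtain ⟨R, hR0, hR⟩ : ∃ R : ℝ, 0 < R ∧ ∀ e ∈ E, ‖e‖ ≤ R := by
    obtain ⟨R, hR0, hR⟩ := hE.isBounded.exists_pos_norm_le
    exact ⟨R, hR0, hR⟩
  choose a ha hV hmax using fun m => exists_fekete hE hne (m + 1)
  let P : ℕ → ℂ[X] := fun m => Lagrange.nodal Finset.univ (a m)
  have hPm : ∀ m, (P m).Monic := fun m => Lagrange.nodal_monic
  have hPd : ∀ m, (P m).natDegree = m + 1 := fun m => by simp [P]
  choose e he hemax using fun m => hE.exists_isMaxOn hne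
    (f := fun x => ‖(P m).eval x‖) (by fun_prop)
  have hfreq := freq hE h (fun m => ‖(P m).eval (e m)‖) (fun m => by
    have := maxVand_succ_le hE hne (P m) (hPm m) (hPd m) _ fun x hx => hemax m hx
    push_cast at this
    convert this using 3
    ring) h0 h1
  obtain ⟨φ, hφ, hφ'⟩ := extraction_of_frequently_atTop hfreq
  choose w hw hwM using fun k => lemniscate (m := φ k + 1) (by omega) (P (φ k)) (hPm _) (hPd _)
    ρ hρ θ h0 M hM0 hM
  have hwS : ∀ k j, ‖(P (φ k)).eval (w k j)‖ ≤ ‖(P (φ k)).eval (e (φ k))‖ := fun k j =>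
    (hw k j).le.trans (hφ' k)
  have hwb : ∀ k, w k ∈ Metric.closedBall (0 : Fin (n + 1) → ℂ) (R + 1) := by
    intro k
    rw [mem_closedBall_zero_iff, pi_norm_le_iff_of_nonneg (by positivity)]
    intro j
    by_contra hlt
    push Not at hlt
    have h2 := hw k j
    simp only [P, Lagrange.eval_nodal, norm_prod] at h2
    have h3 : ∏ _i : Fin (φ k + 1), (1 : ℝ) ≤ ∏ i, ‖w k j - a (φ k) i‖ :=
      Finset.prod_le_prod (fun _ _ => zero_le_one) fun i _ => by
        have := norm_sub_norm_le (w k j) (a (φ k) i)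
        linarith [hR _ (ha (φ k) i)]
    have h4 : θ ^ (φ k + 1) < 1 := pow_lt_one₀ h0.le h1 (by omega)
    rw [Finset.prod_const_one] at h3
    linarith
  obtain ⟨z, -, ψ, hψ, hlim⟩ := (isCompact_closedBall (0 : Fin (n + 1) → ℂ) (R + 1)).tendsto_subseq hwb
  have hz : M * θ ^ npairs (n + 1) ≤ vand z :=
    ge_of_tendsto' (((continuous_vand _).tendsto z).comp hlim) fun k => (hwM _).le
  refine hz.trans (vand_le_of_hull hE hne Finset.univ z (fun j q B hB => ?_) (by simp))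
  by_cases hzE : z j ∈ E
  · exact hB _ hzE
  by_contra hlt
  push Not at hlt
  obtain ⟨ε, hε, hball⟩ := Metric.isOpen_iff.1 hE.isClosed.isOpen_compl _ hzE
  obtain ⟨B', hB1, hB2⟩ := exists_between hlt
  have hB0 : 0 ≤ B := (norm_nonneg _).trans (hB _ (he 0))
  have hB'0 : 0 < B' := hB0.trans_lt hB1
  have hlimj : Tendsto (fun k => w (ψ k) j) atTop (𝓝 (z j)) :=
    ((continuous_apply j).tendsto z).comp hlim
  have e1 : ∀ᶠ k in atTop, B' < ‖q.eval (w (ψ k) j)‖ :=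
    (((q.continuous.norm).tendsto (z j)).comp hlimj).eventually (lt_mem_nhds hB2)
  have e2 : ∀ᶠ k in atTop, dist (w (ψ k) j) (z j) < ε / 2 :=
    Metric.tendsto_nhds.1 hlimj _ (by positivity)
  have hφψ : Tendsto (fun k => φ (ψ k)) atTop atTop := (hφ.comp hψ).tendsto_atTop
  have e3 : ∀ᶠ k in atTop, (1 / 2 : ℝ) ^ npairs (φ (ψ k) + 1) ≤ maxVand E (φ (ψ k) + 1) :=
    ((tendsto_add_atTop_nat 1).comp hφψ).eventually (low hE h (by norm_num) (by norm_num))
  set d := q.natDegree with hd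
  have hq : B / B' < 1 := (div_lt_one hB'0).2 hB1
  have t1 : Tendsto (fun k : ℕ => ((d : ℝ) + 1) * (2 * R / (ε / 2)) *
      ((k : ℝ) * (B / B') ^ k + (B / B') ^ k)) atTop (𝓝 (((d : ℝ) + 1) * (2 * R / (ε / 2)) * (0 + 0))) :=
    ((tendsto_self_mul_const_pow_of_lt_one (by positivity) hq).add
      (tendsto_pow_atTop_nhds_zero_of_lt_one (by positivity) hq)).const_mul _
  have t2 : Tendsto (fun k => φ (ψ k) / (d + 1)) atTop atTop :=
    (Nat.tendsto_div_const_atTop (by omega)).comp hφψ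
  have e4 := (t1.comp t2).eventually (gt_mem_nhds (show ((d : ℝ) + 1) * (2 * R / (ε / 2)) * (0 + 0) < 1
    by simp))
  obtain ⟨k, k1, k2, k3, k4⟩ := (e1.and (e2.and (e3.and e4))).exists
  simp only [Function.comp] at k4
  obtain ⟨m, hm⟩ : ∃ m, m = φ (ψ k) := ⟨_, rfl⟩
  obtain ⟨c, hc⟩ : ∃ c, c = m / (d + 1) := ⟨_, rfl⟩
  have hwS' := hwS (ψ k) j
  rw [← hm] at k3 k4 hwS'
  rw [← hc] at k4
  have hpos : 0 < vand (a m) := by
    rw [← hV m]; exact lt_of_lt_of_le (by positivity) k3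
  have hc1 : c * (d + 1) ≤ m := by rw [hc]; exact Nat.div_mul_le_self _ _
  have hc2 : m < (d + 1) * (c + 1) := by rw [hc]; exact Nat.lt_mul_div_succ _ (by omega)
  have hb := lagrange_bound (a m) (ha m) (hmax m) hpos R hR (e m) (he m) (w (ψ k) j) hwS' (ε / 2)
    (by positivity) (fun x hx => by
      by_contra hx'
      push Not at hx'
      refine hball (show x ∈ Metric.ball (z j) ε from ?_) hx
      have := dist_triangle x (w (ψ k) j) (z j)
      rw [dist_comm x (w (ψ k) j), dist_eq_norm (w (ψ k) j) x] at this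
      rw [Metric.mem_ball]
      linarith) (q ^ c) (natDegree_pow_le.trans (by nlinarith)) (B ^ c) (fun x hx => by
      rw [eval_pow, norm_pow]
      exact pow_le_pow_left₀ (norm_nonneg _) (hB x hx) c)
  rw [eval_pow, norm_pow] at hb
  have k5 : B' ^ c ≤ ‖q.eval (w (ψ k) j)‖ ^ c := pow_le_pow_left₀ hB'0.le k1.le c
  have k6 : ((m : ℝ) + 1) ≤ ((d : ℝ) + 1) * ((c : ℝ) + 1) := by exact_mod_cast hc2
  have k7 : B' ^ c ≤ ((d : ℝ) + 1) * ((c : ℝ) + 1) * (2 * R / (ε / 2) * B ^ c) :=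
    k5.trans (hb.trans (by gcongr))
  have k8 : (0 : ℝ) < B' ^ c := by positivity
  have k9 : ((d : ℝ) + 1) * (2 * R / (ε / 2)) * ((c : ℝ) * (B / B') ^ c + (B / B') ^ c) =
      ((d : ℝ) + 1) * ((c : ℝ) + 1) * (2 * R / (ε / 2) * B ^ c) / B' ^ c := by
    rw [div_pow]; ring
  rw [k9, div_lt_one k8] at k4
  linarith

theorem main (E : Set ℂ) (hE : IsCompact E) (h : Tendsto (nthDiam E) atTop (𝓝 1)) (n : ℕ)
    (hn : 2 ≤ n) : (n : ℝ) ^ ((1 : ℝ) / ((n : ℝ) - 1)) ≤ nthDiam E n := by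
  obtain ⟨n, rfl⟩ : ∃ k, n = k + 1 := ⟨n - 1, by omega⟩
  obtain ⟨ρ, hρ, hv⟩ := exists_unity (n + 1) (by omega)
  have hvpos : 0 < vand ρ := by
    rcases (vand_nonneg ρ).eq_or_lt with h0 | h0
    · rw [← h0] at hv
      have : (0 : ℝ) < ((n + 1 : ℕ) : ℝ) ^ (n + 1) := by positivity
      rw [← hv] at this
      simp at this
    · exact h0
  have h1 : vand ρ ≤ maxVand E (n + 1) := by
    have t : Tendsto (fun θ : ℝ => θ * vand ρ * θ ^ npairs (n + 1)) (𝓝[<] 1)
        (𝓝 (1 * vand ρ * 1 ^ npairs (n + 1))) :=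
      (Continuous.tendsto (by fun_prop) 1).mono_left nhdsWithin_le_nhds
    rw [one_mul, one_pow, mul_one] at t
    refine le_of_tendsto t ?_
    filter_upwards [Ioo_mem_nhdsLT (zero_lt_one' ℝ)] with θ hθ
    exact approx hE h ρ hρ hθ.1 hθ.2 _ (mul_nonneg hθ.1.le hvpos.le)
      (mul_lt_of_lt_one_left hvpos hθ.2)
  have h2 : (2 : ℝ) ≤ ((n + 1 : ℕ) : ℝ) := by exact_mod_cast hn
  set x : ℝ := ((n + 1 : ℕ) : ℝ) with hx
  have h3 : (0 : ℝ) < x * (x - 1) := by nlinarith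
  have h4 : x ^ ((1 : ℝ) / (x - 1)) = vand ρ ^ ((2 : ℝ) / (x * (x - 1))) := by
    have e1 : vand ρ ^ ((2 : ℝ) / (x * (x - 1))) = (vand ρ ^ 2) ^ ((1 : ℝ) / (x * (x - 1))) := by
      rw [← Real.rpow_natCast, ← Real.rpow_mul hvpos.le]
      congr 1
      push_cast
      ring
    rw [e1, hv, ← Real.rpow_natCast, ← Real.rpow_mul (by linarith), ← hx]
    congr 1
    have : x - 1 ≠ 0 := by linarith
    have : x ≠ 0 := by linarith
    field_simp
  rw [h4, nthDiam]
  exact Real.rpow_le_rpow hvpos.le h1 (by positivity)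

end Pool.Agent.H165Z.Diam
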